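import Pool.Agent.Helper45.LinK.GoalsK

/-!
# Bieberbach's theorem: the group of the linear parts is finite
-/

open Complex Metric Set Filter Topology MeasureTheory

namespace Pool.Agent.Helper60.LinK

open Pool.Agent.Helper45.LinK Pool.Agent.Helper95.Lin Pool.Agent.Helper16.Abund
  Pool.Agent.Helper92.Orb

theorem BIEB (hBQ : S_BQ) : S_BIEB := by
  intro k N _ A a hA
  obtain ⟨ε, hε, V₁, hV, p, hp⟩ := hBQ hA
  obtain ⟨C₀, hC₀⟩ := hA.bdd
  obtain ⟨R, hR⟩ := hA.coc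
  set C : ℝ := max C₀ 1 with hCdef
  have hC1 : 1 ≤ C := le_max_right _ _
  have hCpos : 0 < C := lt_of_lt_of_le one_pos hC1
  have hC : ∀ ν, ‖A ν‖ ≤ C := fun ν => (hC₀ ν).trans (le_max_left _ _)
  -- step 1: a finite set of representatives
  have hbd : Bornology.IsBounded (Set.range A) := by
    rw [isBounded_iff_forall_norm_le]
    exact ⟨C, by rintro _ ⟨ν, rfl⟩; exact hC ν⟩
  have htb : TotallyBounded (Set.range A) := by
    have : ProperSpace (CE k) := FiniteDimensional.proper ℂ (CE k)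
    exact (hbd.isCompact_closure).totallyBounded.subset subset_closure
  have hfin : ∃ R₀ : Set N, R₀.Finite ∧ ∀ ν, ∃ ρ ∈ R₀, ‖A ν - A ρ‖ ≤ ε / C := by
    obtain ⟨t, hts, htf, ht⟩ := Metric.finite_approx_of_totallyBounded htb (ε / C)
      (div_pos hε hCpos)
    have hex : ∀ y : CE k, ∃ ν : N, y ∈ Set.range A → A ν = y := by
      intro y
      by_cases hy : y ∈ Set.range A
      · obtain ⟨ν, hν⟩ := hy
        exact ⟨ν, fun _ => hν⟩
      · exact ⟨1, fun h => absurd h hy⟩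
    choose f hf using hex
    refine ⟨f '' t, htf.image f, fun ν => ?_⟩
    have h1 := ht ⟨ν, rfl⟩
    simp only [Set.mem_iUnion, exists_prop] at h1
    obtain ⟨y, hy, hyb⟩ := h1
    refine ⟨f y, ⟨y, hy, rfl⟩, ?_⟩
    rw [hf y (hts hy), ← dist_eq_norm]
    exact (Metric.mem_ball.1 hyb).le
  obtain ⟨R₀, hR₀f, hR₀⟩ := hfin
  have hinv : ∀ ρ : N, A ρ⁻¹ * A ρ = 1 := by
    intro ρ
    rw [← map_mul, inv_mul_cancel, map_one]
  have hsmall : ∀ ν ρ : N, ‖A ν - A ρ‖ ≤ ε / C → ‖A (ρ⁻¹ * ν) - 1‖ ≤ ε := by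
    intro ν ρ h
    have h1 : A (ρ⁻¹ * ν) - 1 = A ρ⁻¹ * (A ν - A ρ) := by
      rw [mul_sub, hinv, map_mul]
    rw [h1]
    calc ‖A ρ⁻¹ * (A ν - A ρ)‖ ≤ ‖A ρ⁻¹‖ * ‖A ν - A ρ‖ := norm_mul_le _ _
      _ ≤ C * (ε / C) := mul_le_mul (hC _) h (norm_nonneg _) hCpos.le
      _ = ε := by field_simp
  -- step 2: cocompactness of the small elements
  obtain ⟨M, hM⟩ : ∃ M : ℝ, ∀ ρ ∈ R₀, ‖a ρ⁻¹‖ ≤ M := by
    obtain ⟨M, hM⟩ := (hR₀f.image (fun ρ => ‖a ρ⁻¹‖)).bddAbove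
    exact ⟨M, fun ρ hρ => hM ⟨ρ, hρ, rfl⟩⟩
  have hcoc : ∀ w : Cn k, ∃ σ, ‖A σ - 1‖ ≤ ε ∧ ‖A σ w + a σ‖ ≤ C * R + M := by
    intro w
    obtain ⟨ν, hν⟩ := hR w
    obtain ⟨ρ, hρ, hνρ⟩ := hR₀ ν
    refine ⟨ρ⁻¹ * ν, hsmall ν ρ hνρ, ?_⟩
    have h1 : A (ρ⁻¹ * ν) w + a (ρ⁻¹ * ν) = A ρ⁻¹ (A ν w + a ν) + a ρ⁻¹ := by
      rw [hA.mul, map_mul, map_add]
      change A ρ⁻¹ (A ν w) + _ = _
      abel
    rw [h1]
    calc ‖A ρ⁻¹ (A ν w + a ν) + a ρ⁻¹‖ ≤ ‖A ρ⁻¹ (A ν w + a ν)‖ + ‖a ρ⁻¹‖ := norm_add_le _ _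
      _ ≤ ‖A ρ⁻¹‖ * ‖A ν w + a ν‖ + ‖a ρ⁻¹‖ := by
          gcongr
          exact (A ρ⁻¹).le_opNorm _
      _ ≤ C * R + M := add_le_add (mul_le_mul (hC _) hν (norm_nonneg _) hCpos.le) (hM ρ hρ)
  -- step 3: the invariant subspace is everything
  have htop : ∀ x : Cn k, x ∈ V₁ := by
    intro x
    have hcl : IsClosed (V₁ : Set (Cn k)) := Submodule.closed_of_finiteDimensional V₁
    have hx : x ∈ closure (V₁ : Set (Cn k)) := by
      rw [Metric.mem_closure_iff]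
      intro δ hδ
      set B : ℝ := C * (C * R + M + ‖p‖) with hB
      obtain ⟨n, hn⟩ := exists_nat_gt (B / δ)
      obtain ⟨n', hn'⟩ : ∃ n' : ℕ, 0 < (n' : ℝ) ∧ B / δ < n' := by
        refine ⟨n + 1, by positivity, ?_⟩
        push_cast
        linarith
      set t : ℝ := (n' : ℝ) with ht
      have htpos : 0 < t := hn'.1
      have htC : (t : ℂ) ≠ 0 := by exact_mod_cast htpos.ne'
      obtain ⟨σ, hσ, hσR⟩ := hcoc (p + (t : ℂ) • x)
      set v₀ : Cn k := A σ p + a σ - p with hv₀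
      have hv₀V : v₀ ∈ V₁ := hp σ hσ
      set v : Cn k := (t : ℂ)⁻¹ • (-v₀) with hv
      have hvV : v ∈ V₁ := V₁.smul_mem _ (V₁.neg_mem hv₀V)
      refine ⟨v, hvV, ?_⟩
      have hfix : A σ⁻¹ v = v := by
        have h1 : A σ v = v := (hV v).1 hvV σ hσ
        calc A σ⁻¹ v = A σ⁻¹ (A σ v) := by rw [h1]
          _ = (A σ⁻¹ * A σ) v := rfl
          _ = v := by rw [hinv]; rfl
      have h2 : x - v = A σ⁻¹ (A σ x - v) := by
        rw [map_sub, hfix]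
        congr 1
        change x = (A σ⁻¹ * A σ) x
        rw [hinv]
        rfl
      have h3 : A σ x - v = (t : ℂ)⁻¹ • (A σ (p + (t : ℂ) • x) + a σ - p) := by
        rw [hv, hv₀, map_add, map_smul]
        have h4 : A σ x = (t : ℂ)⁻¹ • ((t : ℂ) • A σ x) := by
          rw [smul_smul, inv_mul_cancel₀ htC, one_smul]
        conv_lhs => rw [h4]
        rw [← smul_sub]
        congr 1
        abel
      have h5 : ‖A σ x - v‖ ≤ t⁻¹ * (C * R + M + ‖p‖) := by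
        rw [h3, norm_smul]
        have h6 : ‖((t : ℂ)⁻¹ : ℂ)‖ = t⁻¹ := by
          rw [norm_inv, Complex.norm_real, Real.norm_of_nonneg htpos.le]
        rw [h6]
        refine mul_le_mul_of_nonneg_left ?_ (inv_nonneg.2 htpos.le)
        exact (norm_sub_le _ _).trans (add_le_add hσR le_rfl)
      rw [dist_eq_norm, h2]
      calc ‖A σ⁻¹ (A σ x - v)‖ ≤ ‖A σ⁻¹‖ * ‖A σ x - v‖ := (A σ⁻¹).le_opNorm _
        _ ≤ C * (t⁻¹ * (C * R + M + ‖p‖)) :=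
            mul_le_mul (hC _) h5 (norm_nonneg _) hCpos.le
        _ = B / t := by rw [hB]; field_simp
        _ < δ := by
            rw [div_lt_iff₀ htpos]
            have := (div_lt_iff₀ hδ).1 hn'.2
            linarith [mul_comm t δ]
    rwa [hcl.closure_eq] at hx
  -- step 4
  have hone : ∀ σ, ‖A σ - 1‖ ≤ ε → A σ = 1 := by
    intro σ hσ
    ext1 x
    exact (hV x).1 (htop x) σ hσ
  refine (hR₀f.image A).subset ?_
  rintro _ ⟨ν, rfl⟩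
  obtain ⟨ρ, hρ, hνρ⟩ := hR₀ ν
  refine ⟨ρ, hρ, ?_⟩
  have h1 := hone _ (hsmall ν ρ hνρ)
  calc A ρ = A ρ * 1 := (mul_one _).symm
    _ = A ρ * A (ρ⁻¹ * ν) := by rw [h1]
    _ = A ν := by rw [← map_mul, mul_inv_cancel_left]

end Pool.Agent.Helper60.LinK
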