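import Pool.Agent.Helper45.LinK.GoalsN
import Pool.Agent.Helper16.Abund.Torus1
import Pool.Agent.Helper95.Lin.Basics

/-!
# Flat fibres: coordinates in which the metric is constant along the fibres
-/

open Complex Metric Set Filter Topology MeasureTheory
open scoped ContDiff ComplexConjugate ComplexOrder

namespace Pool.Agent.Helper60.LinK

open Pool.Agent.Helper45.LinK Pool.Agent.Helper95.Lin Pool.Agent.Helper16.Abund
  Pool.Agent.Helper92.Orb

/-! ## Linear maps -/

section lin

variable (b k : ℕ)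

/-- `base` as a continuous linear map. -/
noncomputable def baseL : Cn (b + k) →L[ℂ] Cn b :=
  LinearMap.toContinuousLinearMap
    { toFun := base, map_add' := fun _ _ => rfl, map_smul' := fun _ _ => rfl }

/-- `fib` as a continuous linear map. -/
noncomputable def fibL : Cn (b + k) →L[ℂ] Cn k :=
  LinearMap.toContinuousLinearMap
    { toFun := fib, map_add' := fun _ _ => rfl, map_smul' := fun _ _ => rfl }

/-- `Fin.append` as a continuous linear map. -/
noncomputable def appL : (Cn b × Cn k) →L[ℂ] Cn (b + k) :=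
  LinearMap.toContinuousLinearMap
    { toFun := fun p => Fin.append p.1 p.2
      map_add' := fun p q => by
        funext i
        refine Fin.addCases (fun i => ?_) (fun i => ?_) i
        · simp
        · simp
      map_smul' := fun c p => by
        funext i
        refine Fin.addCases (fun i => ?_) (fun i => ?_) i
        · simp
        · simp }

/-- `vert` as a continuous linear map. -/
noncomputable def vertL : Cn k →L[ℂ] Cn (b + k) := (appL b k).comp (ContinuousLinearMap.inr ℂ _ _)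

end lin

variable {b k : ℕ}

@[simp] theorem baseL_apply (v : Cn (b + k)) : baseL b k v = base v := rfl

@[simp] theorem fibL_apply (v : Cn (b + k)) : fibL b k v = fib v := rfl

@[simp] theorem appL_apply (p : Cn b × Cn k) : appL b k p = Fin.append p.1 p.2 := rfl

@[simp] theorem vertL_apply (u : Cn k) : vertL b k u = vert u := rfl

theorem norm_vert (u : Cn k) : ‖(vert u : Cn (b + k))‖ = ‖u‖ := by
  apply le_antisymm
  · rw [pi_norm_le_iff_of_nonneg (norm_nonneg _)]
    intro i
    refine Fin.addCases (fun i => ?_) (fun i => ?_) i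
    · simp [vert]
    · simp only [vert, Fin.append_right]
      exact norm_le_pi_norm u i
  · rw [pi_norm_le_iff_of_nonneg (norm_nonneg _)]
    intro i
    have h := norm_le_pi_norm (vert u : Cn (b + k)) (Fin.natAdd b i)
    simpa [vert] using h

theorem vert_ne_zero {u : Cn k} (hu : u ≠ 0) : (vert u : Cn (b + k)) ≠ 0 := by
  intro h
  have h1 := norm_vert (b := b) u
  rw [h, norm_zero] at h1
  exact hu (norm_eq_zero.1 h1.symm)

/-! ## The quadratic form -/

/-- The metric on vertical vectors. -/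
noncomputable def qf (H : Cn (b + k) → Matrix (Fin (b + k)) (Fin (b + k)) ℂ) (v : Cn (b + k))
    (u : Cn k) : ℝ := (hermi (H v) (vert u) (vert u)).re

theorem hermi_pos {n : ℕ} {A : Matrix (Fin n) (Fin n) ℂ} (hA : A.PosDef) {x : Fin n → ℂ}
    (hx : x ≠ 0) : 0 < (hermi A x x).re := by
  have h1 := hA.transpose.dotProduct_mulVec_pos hx
  have h2 : hermi A x x = star x ⬝ᵥ A.transpose.mulVec x := by
    simp only [hermi, dotProduct, Matrix.mulVec, Matrix.transpose_apply, Finset.mul_sum,
      Pi.star_apply]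
    rw [Finset.sum_comm]
    refine Finset.sum_congr rfl fun j _ => Finset.sum_congr rfl fun i _ => ?_
    change A i j * x i * conj (x j) = conj (x j) * (A i j * x i)
    ring
  rw [h2]
  exact (Complex.lt_def.1 h1).1

theorem qf_pos {H : Cn (b + k) → Matrix (Fin (b + k)) (Fin (b + k)) ℂ} {v : Cn (b + k)}
    (hH : (H v).PosDef) {u : Cn k} (hu : u ≠ 0) : 0 < qf H v u := hermi_pos hH (vert_ne_zero hu)

theorem hermi_smul {n : ℕ} (A : Matrix (Fin n) (Fin n) ℂ) (t : ℝ) (x : Fin n → ℂ) :
    hermi A ((t : ℂ) • x) ((t : ℂ) • x) = ((t ^ 2 : ℝ) : ℂ) * hermi A x x := by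
  simp only [hermi, Finset.mul_sum, Pi.smul_apply, smul_eq_mul, map_mul, Complex.conj_ofReal]
  refine Finset.sum_congr rfl fun i _ => Finset.sum_congr rfl fun j _ => ?_
  push_cast
  ring

theorem qf_smul (H : Cn (b + k) → Matrix (Fin (b + k)) (Fin (b + k)) ℂ) (v : Cn (b + k)) (t : ℝ)
    (u : Cn k) : qf H v ((t : ℂ) • u) = t ^ 2 * qf H v u := by
  unfold qf
  have h : (vert ((t : ℂ) • u) : Cn (b + k)) = (t : ℂ) • vert u := by
    rw [← vertL_apply, map_smul, vertL_apply]
  rw [h, hermi_smul, Complex.re_ofReal_mul]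

theorem qf_zero (H : Cn (b + k) → Matrix (Fin (b + k)) (Fin (b + k)) ℂ) (v : Cn (b + k)) :
    qf H v 0 = 0 := by
  have h := qf_smul H v 0 0
  simpa using h

/-- Compactness: the metric is comparable to the norm. -/
theorem qf_bounds {M : Set (Cn (b + k))} {H : Cn (b + k) → Matrix (Fin (b + k)) (Fin (b + k)) ℂ}
    (hH : ∀ x ∈ M, (H x).PosDef) (hc : ∀ i j, ContinuousOn (fun x => H x i j) M)
    {L : Set (Cn (b + k))} (hL : IsCompact L) (hLM : L ⊆ M) :
    ∃ c C : ℝ, 0 < c ∧ 0 < C ∧ ∀ v ∈ L, ∀ u : Cn k,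
      c * ‖u‖ ^ 2 ≤ qf H v u ∧ qf H v u ≤ C * ‖u‖ ^ 2 := by
  have hS : IsCompact (L ×ˢ sphere (0 : Cn k) 1) := hL.prod (isCompact_sphere _ _)
  have hcont : ContinuousOn (fun p : Cn (b + k) × Cn k => qf H p.1 p.2)
      (L ×ˢ sphere (0 : Cn k) 1) := by
    have h1 : ∀ i, Continuous fun p : Cn (b + k) × Cn k => (vert p.2 : Cn (b + k)) i := fun i =>
      (continuous_apply i).comp ((vertL b k).continuous.comp continuous_snd)
    unfold qf hermi
    refine Complex.continuous_re.comp_continuousOn ?_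
    refine continuousOn_finsetSum _ fun i _ => continuousOn_finsetSum _ fun j _ => ?_
    refine ContinuousOn.mul (ContinuousOn.mul ?_ (h1 i).continuousOn) ?_
    · exact (hc i j).comp continuousOn_fst fun p hp => hLM hp.1
    · exact (Complex.continuous_conj.comp (h1 j)).continuousOn
  have hpos : ∀ p ∈ L ×ˢ sphere (0 : Cn k) 1, 0 < qf H p.1 p.2 := by
    intro p hp
    refine qf_pos (hH _ (hLM hp.1)) ?_
    intro h0
    have := hp.2
    rw [mem_sphere_zero_iff_norm, h0, norm_zero] at this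
    exact zero_ne_one this
  obtain ⟨c, hc0, hc1⟩ := hS.exists_forall_le' hcont hpos
  obtain ⟨C, hC⟩ := hS.exists_bound_of_continuousOn hcont
  refine ⟨c, max C 1, hc0, lt_of_lt_of_le one_pos (le_max_right _ _), fun v hv u => ?_⟩
  by_cases hu : u = 0
  · subst hu
    rw [qf_zero]
    simp
  · have hn : (‖u‖ : ℝ) ≠ 0 := norm_ne_zero_iff.2 hu
    have hnC : ((‖u‖ : ℝ) : ℂ) ≠ 0 := by exact_mod_cast hn
    set u₀ : Cn k := (((‖u‖ : ℝ) : ℂ))⁻¹ • u with hu₀
    have h1 : u = ((‖u‖ : ℝ) : ℂ) • u₀ := by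
      rw [hu₀, smul_smul, mul_inv_cancel₀ hnC, one_smul]
    have h2 : ‖u₀‖ = 1 := by
      rw [hu₀, norm_smul, norm_inv, Complex.norm_real, norm_norm, inv_mul_cancel₀ hn]
    have h3 : qf H v u = ‖u‖ ^ 2 * qf H v u₀ := by
      conv_lhs => rw [h1]
      rw [qf_smul]
    have hmem : (v, u₀) ∈ L ×ˢ sphere (0 : Cn k) 1 := ⟨hv, by simpa using h2⟩
    have h4 := hc1 _ hmem
    have h5 := hC _ hmem
    simp only at h4 h5
    have h6 : qf H v u₀ ≤ max C 1 := (le_abs_self _).trans (h5.trans (le_max_left _ _))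
    rw [h3]
    have h7 : 0 ≤ ‖u‖ ^ 2 := by positivity
    constructor
    · nlinarith
    · nlinarith

/-! ## The fibrewise coordinates -/

section fibre

variable {Φ Φ' : Cn k → Cn k}

theorem fib_comp1 (hd : Differentiable ℂ Φ) (hd' : Differentiable ℂ Φ')
    (h1 : ∀ w, Φ' (Φ w) = w) (w x : Cn k) :
    fderiv ℂ Φ' (Φ w) (fderiv ℂ Φ w x) = x := by
  have h : HasFDerivAt (fun w => Φ' (Φ w)) ((fderiv ℂ Φ' (Φ w)).comp (fderiv ℂ Φ w)) w :=
    (hd' (Φ w)).hasFDerivAt.comp w (hd w).hasFDerivAt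
  have h2 : (fun w => Φ' (Φ w)) = fun w => w := funext h1
  rw [h2] at h
  have h3 := h.unique (hasFDerivAt_id w)
  have h4 := congrArg (fun L : Cn k →L[ℂ] Cn k => L x) h3
  simpa using h4

theorem fib_comp2 (hd : Differentiable ℂ Φ) (hd' : Differentiable ℂ Φ')
    (h1 : ∀ w, Φ' (Φ w) = w) (h2 : ∀ w, Φ (Φ' w) = w) (w x : Cn k) :
    fderiv ℂ Φ w (fderiv ℂ Φ' (Φ w) x) = x := by
  have h := fib_comp1 hd' hd h2 (Φ w) x
  rwa [h1] at h

end fibre

theorem flat (hFN : S_FN) (hFT : S_FT) (hFH : S_FH) (hPIC : S_PIC) (hINT : S_INTH)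
    (hINV : S_INVH) : S_FLAT := by
  intro b k D Γ _ F H hD hK hflat
  have hMet : Met (tubeK D k) H :=
    ⟨hK.act.isOpen, hK.posDef, hK.smooth, hK.closed⟩
  obtain ⟨N, hN⟩ := hFN hMet
  have hNh : DifferentiableOn ℂ N (tubeK D k) := hFT hD hK hflat hN
  have hopen : IsOpen (tubeK D k) := hK.act.isOpen
  choose! Φ Φ' hΦ using hflat
  have hd : ∀ z ∈ D, Differentiable ℂ (Φ z) := fun z hz => (hΦ z hz).1
  have hd' : ∀ z ∈ D, Differentiable ℂ (Φ' z) := fun z hz => (hΦ z hz).2.1
  have hi1 : ∀ z ∈ D, ∀ w, Φ' z (Φ z w) = w := fun z hz => (hΦ z hz).2.2.1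
  have hi2 : ∀ z ∈ D, ∀ w, Φ z (Φ' z w) = w := fun z hz => (hΦ z hz).2.2.2.1
  have hmet : ∀ z ∈ D, ∀ w u v : Cn k, hermi (H (Fin.append z w)) (vert u) (vert v) =
      ∑ i, fderiv ℂ (Φ z) w u i * conj (fderiv ℂ (Φ z) w v i) := fun z hz => (hΦ z hz).2.2.2.2
  have htube : ∀ z ∈ D, ∀ w : Cn k, Fin.append z w ∈ tubeK D k := by
    intro z hz w
    change base (Fin.append z w) ∈ D
    rw [base_append]
    exact hz
  -- the derivative of the fibre coordinate
  set T : Cn b → Cn k →L[ℂ] Cn k := fun z => fderiv ℂ (Φ' z) (Φ z 0) with hT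
  set G : Cn (b + k) → CE k := fun v =>
    (T (base v)).comp (fderiv ℂ (Φ (base v)) (fib v)) with hG
  set ψ : Cn b → Cn k → Cn k := fun z w => T z (Φ z w - Φ z 0) with hψ
  set ψ' : Cn b → Cn k → Cn k := fun z y => Φ' z (Φ z 0 + fderiv ℂ (Φ z) 0 y) with hψ'
  have hGa : ∀ z w, G (Fin.append z w) = (T z).comp (fderiv ℂ (Φ z) w) := by
    intro z w
    simp only [hG, base_append, fib_append]
  have hψd : ∀ z ∈ D, ∀ w, HasFDerivAt (ψ z) (G (Fin.append z w)) w := by
    intro z hz w
    rw [hGa]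
    exact (T z).hasFDerivAt.comp w ((hd z hz w).hasFDerivAt.sub_const _)
  have hψ0 : ∀ z, ψ z 0 = 0 := by
    intro z
    simp [hψ]
  have hψψ : ∀ z ∈ D, ∀ w, ψ' z (ψ z w) = w := by
    intro z hz w
    simp only [hψ, hψ', hT]
    rw [fib_comp2 (hd z hz) (hd' z hz) (hi1 z hz) (hi2 z hz), add_sub_cancel, hi1 z hz]
  have hψψ' : ∀ z ∈ D, ∀ w, ψ z (ψ' z w) = w := by
    intro z hz w
    simp only [hψ, hψ', hT]
    rw [hi2 z hz, add_sub_cancel_left, fib_comp1 (hd z hz) (hd' z hz) (hi1 z hz)]
  -- the metric in terms of `G`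
  have hqG : ∀ z ∈ D, ∀ w u : Cn k,
      qf H (Fin.append z 0) (G (Fin.append z w) u) = qf H (Fin.append z w) u := by
    intro z hz w u
    unfold qf
    rw [hmet z hz, hmet z hz, hGa]
    simp only [ContinuousLinearMap.comp_apply, hT]
    rw [fib_comp2 (hd z hz) (hd' z hz) (hi1 z hz) (hi2 z hz)]
  have hHc : ∀ i j, ContinuousOn (fun x => H x i j) (tubeK D k) := fun i j =>
    (hK.smooth i j).continuousOn
  -- the bound for `G`
  have hGb : ∀ K ⊆ D, IsCompact K → ∀ R : ℝ, ∃ B : ℝ, ∀ z ∈ K, ∀ w : Cn k, ‖w‖ ≤ R →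
      ‖G (Fin.append z w)‖ ≤ B := by
    intro K hKD hKc R
    have hL : IsCompact ((fun p : Cn b × Cn k => Fin.append p.1 p.2) ''
        (K ×ˢ closedBall (0 : Cn k) R)) :=
      (hKc.prod (isCompact_closedBall _ _)).image (appL b k).continuous
    have hLM : (fun p : Cn b × Cn k => Fin.append p.1 p.2) ''
        (K ×ˢ closedBall (0 : Cn k) R) ⊆ tubeK D k := by
      rintro _ ⟨p, hp, rfl⟩
      exact htube _ (hKD hp.1) _
    have hL0 : IsCompact ((fun p : Cn b × Cn k => Fin.append p.1 p.2) ''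
        (K ×ˢ {(0 : Cn k)})) :=
      (hKc.prod isCompact_singleton).image (appL b k).continuous
    have hL0M : (fun p : Cn b × Cn k => Fin.append p.1 p.2) ''
        (K ×ˢ {(0 : Cn k)}) ⊆ tubeK D k := by
      rintro _ ⟨p, hp, rfl⟩
      exact htube _ (hKD hp.1) _
    obtain ⟨_, C, _, hC, hbd⟩ := qf_bounds hK.posDef hHc hL hLM
    obtain ⟨c, _, hc, _, hbd0⟩ := qf_bounds hK.posDef hHc hL0 hL0M
    refine ⟨Real.sqrt (C / c), fun z hz w hw => ?_⟩
    refine ContinuousLinearMap.opNorm_le_bound _ (Real.sqrt_nonneg _) fun u => ?_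
    have h1 := (hbd0 (Fin.append z 0) ⟨(z, 0), ⟨hz, rfl⟩, rfl⟩ (G (Fin.append z w) u)).1
    have h2 := (hbd (Fin.append z w) ⟨(z, w), ⟨hz, by simpa using hw⟩, rfl⟩ u).2
    rw [hqG z (hKD hz)] at h1
    have h3 : ‖G (Fin.append z w) u‖ ^ 2 ≤ (C / c) * ‖u‖ ^ 2 := by
      rw [div_mul_eq_mul_div, le_div_iff₀ hc]
      linarith
    have h4 : (Real.sqrt (C / c) * ‖u‖) ^ 2 = (C / c) * ‖u‖ ^ 2 := by
      rw [mul_pow, Real.sq_sqrt (by positivity)]
    rw [← h4] at h3
    exact le_of_sq_le_sq h3 (by positivity)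
  -- `G` is holomorphic
  have hGd : DifferentiableOn ℂ G (tubeK D k) := by
    have hN2 : DifferentiableOn ℂ (fun v => (1 / 2 : ℂ) • N v) (tubeK D k) := by
      exact DifferentiableOn.const_smul (𝕜 := ℂ) (E := Cn (b + k)) (F := Cn k →L[ℂ] CE k)
        (R := ℂ) (f := N) hNh (1 / 2)
    refine hPIC hD.isOpen (fun v => (1 / 2 : ℂ) • N v) hN2 G ?_ ?_ ?_ hGb
    · intro z hz
      have h1 : Differentiable ℂ (fderiv ℂ (Φ z)) :=
        differentiableOn_univ.1 (holo_fderiv isOpen_univ (hd z hz).differentiableOn)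
      have h2 : (fun w : Cn k => G (Fin.append z w)) = fun w => (T z).comp (fderiv ℂ (Φ z) w) :=
        funext fun w => hGa z w
      rw [h2]
      intro w
      exact (differentiableAt_const _).clm_comp (h1 w)
    · intro z hz
      rw [hGa]
      ext1 x
      exact fib_comp1 (hd z hz) (hd' z hz) (hi1 z hz) 0 x
    · intro z hz w u u'
      have h1 : Differentiable ℂ (fderiv ℂ (Φ z)) :=
        differentiableOn_univ.1 (holo_fderiv isOpen_univ (hd z hz).differentiableOn)
      have h2 : (fun w : Cn k => G (Fin.append z w)) = fun w => (T z).comp (fderiv ℂ (Φ z) w) :=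
        funext fun w => hGa z w
      have h3 : HasFDerivAt (fun w => (T z).comp (fderiv ℂ (Φ z) w))
          ((ContinuousLinearMap.compL ℂ (Cn k) (Cn k) (Cn k) (T z)).comp
            (fderiv ℂ (fderiv ℂ (Φ z)) w)) w :=
        (ContinuousLinearMap.compL ℂ (Cn k) (Cn k) (Cn k) (T z)).hasFDerivAt.comp w
          (h1 w).hasFDerivAt
      rw [h2, h3.fderiv, hGa]
      change T z (fderiv ℂ (fderiv ℂ (Φ z)) w u u') =
        T z (fderiv ℂ (Φ z) w ((1 / 2 : ℂ) • N (Fin.append z w) u u'))
      congr 1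
      have h4 := (hFH hMet hN z hz (Φ z) (Φ' z) (hΦ z hz)).1 w u u'
      rw [map_smul, ← h4, smul_smul]
      norm_num
  -- the fibre coordinate is holomorphic
  have hψint : ∀ v ∈ tubeK D k, ψ (base v) (fib v) =
      ∫ s in (0 : ℝ)..1, G (Fin.append (base v) ((s : ℂ) • fib v)) (fib v) := by
    intro v hv
    have hz : base v ∈ D := hv
    have h1 : ∀ s : ℝ, HasDerivAt (fun s : ℝ => ψ (base v) ((s : ℂ) • fib v))
        (G (Fin.append (base v) ((s : ℂ) • fib v)) (fib v)) s := by
      intro s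
      have h2 : HasDerivAt (fun s : ℝ => (s : ℂ) • fib v) (fib v) s := by
        have h3 := (Complex.ofRealCLM.hasDerivAt (x := s)).smul_const (fib v)
        simpa using h3
      exact ((hψd _ hz ((s : ℂ) • fib v)).restrictScalars ℝ).comp_hasDerivAt s h2
    have h4 : Continuous fun s : ℝ => G (Fin.append (base v) ((s : ℂ) • fib v)) (fib v) := by
      have hs : Continuous fun s : ℝ => (s : ℂ) • fib v :=
        Complex.continuous_ofReal.smul continuous_const
      have hs' : Continuous fun s : ℝ => (base v, (s : ℂ) • fib v) := continuous_const.prodMk hs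
      have h5 : Continuous fun s : ℝ => (Fin.append (base v) ((s : ℂ) • fib v) : Cn (b + k)) :=
        (appL b k).continuous.comp hs'
      have h6 : Continuous fun s : ℝ => G (Fin.append (base v) ((s : ℂ) • fib v)) :=
        hGd.continuousOn.comp_continuous h5 fun s => htube _ hz _
      exact h6.clm_apply continuous_const
    rw [intervalIntegral.integral_eq_sub_of_hasDerivAt (fun s _ => h1 s)
      (h4.intervalIntegrable _ _)]
    simp [hψ0]
  have hψh : DifferentiableOn ℂ (fun v : Cn (b + k) => ψ (base v) (fib v)) (tubeK D k) := by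
    have h1 : DifferentiableOn ℂ (fun v : Cn (b + k) =>
        ∫ s in (0 : ℝ)..1, G (Fin.append (base v) ((s : ℂ) • fib v)) (fib v)) (tubeK D k) := by
      refine hINT hopen (fun s v => G (Fin.append (base v) ((s : ℂ) • fib v)) (fib v)) ?_ ?_
      · intro s _
        have h2 : DifferentiableOn ℂ
            (fun v : Cn (b + k) => G (Fin.append (base v) ((s : ℂ) • fib v))) (tubeK D k) := by
          refine hGd.comp (g := G)
            (f := fun v : Cn (b + k) => (Fin.append (base v) ((s : ℂ) • fib v) : Cn (b + k)))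
            ?_ fun v hv => htube _ hv _
          exact ((appL b k).differentiable.comp
            ((baseL b k).differentiable.prodMk
              ((fibL b k).differentiable.const_smul (s : ℂ)))).differentiableOn
        exact h2.clm_apply (fibL b k).differentiable.differentiableOn
      · have h2 : ContinuousOn
            (fun p : ℝ × Cn (b + k) => G (Fin.append (base p.2) ((p.1 : ℂ) • fib p.2)))
            (Icc (0 : ℝ) 1 ×ˢ tubeK D k) := by
          refine hGd.continuousOn.comp (g := G)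
            (f := fun p : ℝ × Cn (b + k) =>
              (Fin.append (base p.2) ((p.1 : ℂ) • fib p.2) : Cn (b + k)))
            ?_ fun p hp => htube _ hp.2 _
          have hs : Continuous fun p : ℝ × Cn (b + k) => (base p.2, (p.1 : ℂ) • fib p.2) :=
            Continuous.prodMk ((baseL b k).continuous.comp continuous_snd)
              ((Complex.continuous_ofReal.comp continuous_fst).smul
                ((fibL b k).continuous.comp continuous_snd))
          exact ((appL b k).continuous.comp hs).continuousOn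
        exact h2.clm_apply ((fibL b k).continuous.comp continuous_snd).continuousOn
    exact h1.congr hψint
  -- the maps
  set Ψ : Cn (b + k) → Cn (b + k) := fun v => Fin.append (base v) (ψ (base v) (fib v)) with hΨ
  set Ψ' : Cn (b + k) → Cn (b + k) := fun v => Fin.append (base v) (ψ' (base v) (fib v)) with hΨ'
  have hΨh : DifferentiableOn ℂ Ψ (tubeK D k) :=
    (appL b k).differentiable.comp_differentiableOn
      ((baseL b k).differentiable.differentiableOn.prodMk hψh)
  have hbas : ∀ v, base (Ψ v) = base v := fun v => base_append _ _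
  have hbas' : ∀ v, base (Ψ' v) = base v := fun v => base_append _ _
  have hmaps : MapsTo Ψ (tubeK D k) (tubeK D k) := fun v hv => by
    change base (Ψ v) ∈ D
    rw [hbas]
    exact hv
  have hmaps' : MapsTo Ψ' (tubeK D k) (tubeK D k) := fun v hv => by
    change base (Ψ' v) ∈ D
    rw [hbas']
    exact hv
  have hleft : ∀ v ∈ tubeK D k, Ψ' (Ψ v) = v := by
    intro v hv
    have h1 : Ψ' (Ψ v) = Fin.append (base v) (ψ' (base v) (ψ (base v) (fib v))) := by
      simp only [hΨ, hΨ', base_append, fib_append]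
    rw [h1, hψψ _ hv, append_base_fib]
  have hright : ∀ v ∈ tubeK D k, Ψ (Ψ' v) = v := by
    intro v hv
    have h1 : Ψ (Ψ' v) = Fin.append (base v) (ψ (base v) (ψ' (base v) (fib v))) := by
      simp only [hΨ, hΨ', base_append, fib_append]
    rw [h1, hψψ' _ hv, append_base_fib]
  have hΨd : ∀ v ∈ tubeK D k, HasFDerivAt Ψ (fderiv ℂ Ψ v) v := fun v hv =>
    (hΨh.differentiableAt (hopen.mem_nhds hv)).hasFDerivAt
  have hDb : ∀ v ∈ tubeK D k, ∀ η, base (fderiv ℂ Ψ v η) = base η := by
    intro v hv η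
    have h1 : HasFDerivAt (fun x => base (Ψ x)) ((baseL b k).comp (fderiv ℂ Ψ v)) v :=
      (baseL b k).hasFDerivAt.comp v (hΨd v hv)
    have h2 : (fun x => base (Ψ x)) = fun x => baseL b k x := funext hbas
    rw [h2] at h1
    have h3 := h1.unique (baseL b k).hasFDerivAt
    have h4 := congrArg (fun L : Cn (b + k) →L[ℂ] Cn b => L η) h3
    exact h4
  have hDv : ∀ v ∈ tubeK D k, ∀ u : Cn k, fderiv ℂ Ψ v (vert u) = vert (G v u) := by
    intro v hv u
    have hz : base v ∈ D := hv
    have ha : Fin.append (base v) (fib v) = v := append_base_fib v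
    have h1 : HasFDerivAt (fun w : Cn k => (Fin.append (base v) w : Cn (b + k))) (vertL b k)
        (fib v) := by
      have h2 : (fun w : Cn k => (Fin.append (base v) w : Cn (b + k))) =
          fun w => appL b k (base v, w) := rfl
      rw [h2]
      exact (appL b k).hasFDerivAt.comp (fib v) (hasFDerivAt_prodMk_right (base v) (fib v))
    have h3 : HasFDerivAt (fun w : Cn k => Ψ (Fin.append (base v) w))
        ((fderiv ℂ Ψ v).comp (vertL b k)) (fib v) := by
      have h4 : HasFDerivAt Ψ (fderiv ℂ Ψ v) (Fin.append (base v) (fib v)) := by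
        rw [ha]
        exact hΨd v hv
      exact h4.comp (fib v) h1
    have h5 : (fun w : Cn k => Ψ (Fin.append (base v) w)) =
        fun w => (Fin.append (base v) (ψ (base v) w) : Cn (b + k)) := by
      funext w
      simp only [hΨ, base_append, fib_append]
    have h6 : HasFDerivAt (fun w : Cn k => (Fin.append (base v) (ψ (base v) w) : Cn (b + k)))
        ((vertL b k).comp (G v)) (fib v) := by
      have h7 := hψd _ hz (fib v)
      rw [ha] at h7
      have h8 : HasFDerivAt (fun w : Cn k => (Fin.append (base v) w : Cn (b + k))) (vertL b k)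
          (ψ (base v) (fib v)) := by
        exact (appL b k).hasFDerivAt.comp (ψ (base v) (fib v))
          (hasFDerivAt_prodMk_right (base v) (ψ (base v) (fib v)))
      exact h8.comp (fib v) h7
    rw [h5] at h3
    have h9 := h3.unique h6
    have h10 := congrArg (fun L : Cn k →L[ℂ] Cn (b + k) => L u) h9
    exact h10
  have hGinj : ∀ v ∈ tubeK D k, ∀ u : Cn k, G v u = 0 → u = 0 := by
    intro v hv u hu
    by_contra hne
    have hz : base v ∈ D := hv
    have h1 := hqG _ hz (fib v) u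
    rw [append_base_fib, hu, qf_zero] at h1
    have h2 := qf_pos (hK.posDef v hv) hne
    linarith
  have hinj : ∀ v ∈ tubeK D k, Function.Injective (fderiv ℂ Ψ v) := by
    intro v hv
    rw [injective_iff_map_eq_zero]
    intro η hη
    have h1 : base η = 0 := by
      rw [← hDb v hv η, hη]
      rfl
    have h2 : η = vert (fib η) := by
      rw [vert, ← h1, append_base_fib]
    rw [h2, hDv v hv] at hη
    have h3 : G v (fib η) = 0 := by
      have h4 := norm_vert (b := b) (G v (fib η))
      rw [hη, norm_zero] at h4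
      exact norm_eq_zero.1 h4.symm
    rw [h2, hGinj v hv _ h3]
    exact map_zero (vertL b k)
  refine ⟨Ψ, Ψ', ⟨hΨh, hINV hopen Ψ Ψ' hΨh hmaps hmaps' hleft hright hinj, fun v _ => hbas v,
    fun v _ => hbas' v, hleft, hright⟩, ?_⟩
  intro K hKD hKc
  have hL0 : IsCompact ((fun p : Cn b × Cn k => Fin.append p.1 p.2) ''
      (K ×ˢ {(0 : Cn k)})) :=
    (hKc.prod isCompact_singleton).image (appL b k).continuous
  have hL0M : (fun p : Cn b × Cn k => Fin.append p.1 p.2) ''
      (K ×ˢ {(0 : Cn k)}) ⊆ tubeK D k := by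
    rintro _ ⟨p, hp, rfl⟩
    exact htube _ (hKD hp.1) _
  obtain ⟨c, C, hc, hC, hbd0⟩ := qf_bounds hK.posDef hHc hL0 hL0M
  refine ⟨C / c, by positivity, fun v hv u u' huu => ?_⟩
  have hvD : v ∈ tubeK D k := hKD hv
  rw [hDv v hvD, hDv v hvD, norm_vert, norm_vert] at huu
  have hmem : (Fin.append (base v) 0 : Cn (b + k)) ∈
      (fun p : Cn b × Cn k => Fin.append p.1 p.2) '' (K ×ˢ {(0 : Cn k)}) :=
    ⟨(base v, 0), ⟨hv, rfl⟩, rfl⟩
  have h1 := (hbd0 _ hmem (G v u)).2
  have h2 := (hbd0 _ hmem (G v u')).1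
  have h3 := hqG _ hvD (fib v) u
  have h4 := hqG _ hvD (fib v) u'
  rw [append_base_fib] at h3 h4
  rw [h3, huu] at h1
  rw [h4] at h2
  change qf H v u ≤ C / c * qf H v u'
  rw [div_mul_eq_mul_div, le_div_iff₀ hc]
  nlinarith

end Pool.Agent.Helper60.LinK
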